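import Pool.Agent.Helper18.FM.GoalsA
import Pool.Agent.Helper82.HB.SCL

/-! # FM: the Chern–Lu identity along `σ` without the sign, goal FCL -/

open Complex Metric Set Filter Topology MeasureTheory
open scoped ContDiff ComplexConjugate ComplexOrder Manifold Matrix

namespace Pool.Agent.Helper2.FM.FCL

open Pool.Agent.Helper95.Lin Pool.Agent.Helper16.Abund Pool.Agent.Helper92.Orb
  Pool.Agent.Helper10.SP Pool.Agent.Helper95.RK Pool.Agent.Helper57.HS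
  Pool.Agent.Helper15.HS Pool.Agent.Helper18.FM
open Pool.Agent.Helper82.HB hiding sm_sigma sm_gS sm_B sm_tau cdbR_B cd_t cdbR_tau tS_real LM_t trL_t scl
open Pool.Agent.Helper45.HS (SmM cd_congr' posDef_det cd_trace cdb_trace)
open Pool.Agent.Helper62.HS (frq frq_nonneg frq_eq)
open Pool.Agent.Helper16.HS (sum_split)

universe u

section ident

variable {n m : ℕ} {T : Set (Cn n)} {G : Type u} [Group G] {R : G → Cn n → Cn n → Prop}
  {σ : Cn n → Matrix (Fin n) (Fin m) ℂ} {h : Cn n → Matrix (Fin m) (Fin m) ℂ}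
  {Q η : Cn n → Matrix (Fin n) (Fin n) ℂ} {x : Cn n}

/-- Smoothness of the pieces. -/
theorem sm_sigma (hT : IsOpen T) (hS : SF T R σ h) : SmR σ T := SmR.of_holo hT hS.holo

theorem sm_gS (hT : IsOpen T) (hS : SF T R σ h) : SmR (gS σ h) T :=
  SmR.mul (SmR.mul (sm_sigma hT hS) (Y := h) hS.smooth) (sm_sigma hT hS).conjTranspose

theorem sm_B (hT : IsOpen T) (hS : SF T R σ h) (hQ : KEt T R Q) :
    SmR (fun y => h y * (σ y)ᴴ * (Q y)⁻¹) T :=
  SmR.mul (SmR.mul (X := h) hS.smooth (sm_sigma hT hS).conjTranspose) (K_smooth hQ)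

theorem sm_tau (hT : IsOpen T) (hS : SF T R σ h) (hQ : KEt T R Q) (k : Fin n) :
    SmR (tauS σ h Q k) T :=
  SmR.sub (SmR.add ((sm_sigma hT hS).cdR hT k)
    (SmR.mul (sm_sigma hT hS) (gamE_smooth hT hS.smooth hS.posDef k)))
    (SmR.mul (sm_GamQ hQ k) (sm_sigma hT hS))

/-- `cdb l (h σᴴ K) = h τ_lᴴ K`. -/
theorem cdbR_B (hS : SF T R σ h) (hQ : KEt T R Q) (hx : x ∈ T) (l : Fin n) :
    cdbR l (fun y => h y * (σ y)ᴴ * (Q y)⁻¹) x = h x * (tauS σ h Q l x)ᴴ * (Q x)⁻¹ := by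
  have hT := hQ.et.isOpen
  have hs := sm_sigma hT hS
  rw [cdbR_mul hT hx (SmR.mul (X := h) hS.smooth hs.conjTranspose) (K_smooth hQ) l,
    cdbR_mul hT hx (X := h) hS.smooth hs.conjTranspose l, cdbR_conjTranspose hT hx hs l,
    cdbR_K hQ hx l]
  have h1 : cdbR l h x = h x * (GamE h l x)ᴴ := cdbM_E hT hS.smooth hS.posDef hx l
  rw [h1]
  unfold tauS
  simp only [Matrix.conjTranspose_sub, Matrix.conjTranspose_add, Matrix.conjTranspose_mul,
    Matrix.mul_sub, Matrix.mul_add, Matrix.sub_mul, Matrix.add_mul, Matrix.mul_neg,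
    Matrix.mul_assoc]
  abel

/-- `cd k tr (g K) = tr (τ_k h σᴴ K)`. -/
theorem cd_t (hS : SF T R σ h) (hQ : KEt T R Q) (hx : x ∈ T) (k : Fin n) :
    cd k (fun y => Matrix.trace (gS σ h y * (Q y)⁻¹)) x =
      Matrix.trace (tauS σ h Q k x * (h x * (σ x)ᴴ * (Q x)⁻¹)) := by
  have hT := hQ.et.isOpen
  have hs := sm_sigma hT hS
  have hsh : SmR (fun y => σ y * h y) T := SmR.mul hs (Y := h) hS.smooth
  have hgK : SmM (fun y => gS σ h y * (Q y)⁻¹) T := SmR.mul (sm_gS hT hS) (K_smooth hQ)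
  rw [cd_trace hT hx hgK k]
  have h0 : cdM k (fun y => gS σ h y * (Q y)⁻¹) x = cdR k (gS σ h) x * (Q x)⁻¹ +
      gS σ h x * cdR k (fun y => (Q y)⁻¹) x :=
    cdR_mul hT hx (sm_gS hT hS) (K_smooth hQ) k
  have h1 : cdR k (gS σ h) x = (cdR k σ x * h x + σ x * (GamE h k x * h x)) * (σ x)ᴴ := by
    have h2 : cdR k (gS σ h) x = cdR k (fun y => σ y * h y) x * (σ x)ᴴ +
        σ x * h x * cdR k (fun y => (σ y)ᴴ) x := cdR_mul hT hx hsh hs.conjTranspose k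
    have h3 : cdR k h x = GamE h k x * h x := (gamE_mul (hS.posDef x hx) k).symm
    rw [h2, cdR_mul hT hx hs (Y := h) hS.smooth k, cdR_conjTranspose hT hx hs k,
      cdbR_holo hT hx hS.holo k, h3]
    simp
  rw [h0, h1, cdR_K hQ hx k, Matrix.trace_add]
  have h4 : Matrix.trace (gS σ h x * -((Q x)⁻¹ * Gam Q k x)) =
      - Matrix.trace (Gam Q k x * (gS σ h x * (Q x)⁻¹)) := by
    rw [Matrix.mul_neg, Matrix.trace_neg, ← Matrix.mul_assoc, Matrix.trace_mul_comm]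
  rw [h4]
  unfold tauS gS
  simp only [Matrix.sub_mul, Matrix.add_mul, Matrix.trace_sub, Matrix.trace_add,
    Matrix.mul_assoc]
  ring

/-- `cdb l τ_k = σ RE k l - (cdb l Γ'_k) σ`. -/
theorem cdbR_tau (hS : SF T R σ h) (hQ : KEt T R Q) (hx : x ∈ T) (k l : Fin n) :
    cdbR l (tauS σ h Q k) x = σ x * RE h k l x - cdbM l (Gam Q k) x * σ x := by
  have hT := hQ.et.isOpen
  have hs := sm_sigma hT hS
  have hG := gamE_smooth hT hS.smooth hS.posDef k
  have hG' := sm_GamQ hQ k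
  have h1 : cdbR l (tauS σ h Q k) x =
      cdbR l (fun y => cdR k σ y + σ y * GamE h k y) x - cdbR l (fun y => Gam Q k y * σ y) x :=
    cdbR_sub hT hx (SmR.add (hs.cdR hT k) (SmR.mul hs (Y := GamE h k) hG)) (SmR.mul hG' hs) l
  rw [h1, cdbR_add hT hx (hs.cdR hT k) (SmR.mul hs (Y := GamE h k) hG) l,
    cdbR_cdR_holo hT hx hS.holo k l, cdbR_mul hT hx hs (Y := GamE h k) hG l,
    cdbR_mul hT hx hG' hs l, cdbR_holo hT hx hS.holo l]
  simp only [Matrix.zero_mul, Matrix.mul_zero, zero_add, add_zero]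
  rfl

theorem tS_real (hS : SF T R σ h) (hQ : KEt T R Q) (hx : x ∈ T) :
    ((tS σ h Q x : ℝ) : ℂ) = Matrix.trace (gS σ h x * (Q x)⁻¹) := by
  have h1 := (aaps_rect (hQ.posDef x hx).inv.posSemidef (hS.posDef x hx).posSemidef
    (fun _ => 0) (σ x)).2.2.1
  refine Complex.ext ?_ ?_
  · rfl
  · rw [Complex.ofReal_im]
    exact h1.symm

/-- The Levi matrix of `tr (g K)`. -/
theorem LM_t (hS : SF T R σ h) (hQ : KEt T R Q) (hx : x ∈ T) (k l : Fin n) :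
    LM (tS σ h Q) x k l =
      Matrix.trace (σ x * RE h k l x * (h x * (σ x)ᴴ * (Q x)⁻¹)) -
      Matrix.trace (cdbM l (Gam Q k) x * (σ x * (h x * (σ x)ᴴ * (Q x)⁻¹))) +
      Matrix.trace (tauS σ h Q k x * (h x * (tauS σ h Q l x)ᴴ * (Q x)⁻¹)) := by
  have hT := hQ.et.isOpen
  have hgK : SmM (fun y => gS σ h y * (Q y)⁻¹) T := SmR.mul (sm_gS hT hS) (K_smooth hQ)
  set F : Cn n → ℂ := fun y => Matrix.trace (gS σ h y * (Q y)⁻¹) with hF
  have hFs : ContDiffOn ℝ ∞ F T := hgK.trace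
  have h0 : ∀ y ∈ T, ((tS σ h Q y : ℝ) : ℂ) = F y := fun y hy => tS_real hS hQ hy
  have h1 : LM (tS σ h Q) x k l = cd k (cdb l F) x := by
    simp only [LM, Matrix.of_apply]
    exact (cd_congr' hT hx (fun y hy => (cd_congr' hT hy h0 l).2) k).1
  have hτB : SmM (fun y => tauS σ h Q k y * (h y * (σ y)ᴴ * (Q y)⁻¹)) T :=
    SmR.mul (sm_tau hT hS hQ k) (sm_B hT hS hQ)
  rw [h1, ((Wirt.wirt T hT F F hFs hFs).2.2.2.2.1 k l x hx).2.2,
    (cd_congr' hT hx (fun y hy => cd_t hS hQ hy k) l).2, cdb_trace hT hx hτB l]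
  have h2 : cdbM l (fun y => tauS σ h Q k y * (h y * (σ y)ᴴ * (Q y)⁻¹)) x =
      cdbR l (tauS σ h Q k) x * (h x * (σ x)ᴴ * (Q x)⁻¹) +
      tauS σ h Q k x * cdbR l (fun y => h y * (σ y)ᴴ * (Q y)⁻¹) x :=
    cdbR_mul hT hx (sm_tau hT hS hQ k) (sm_B hT hS hQ) l
  rw [h2, cdbR_tau hS hQ hx k l, cdbR_B hS hQ hx l, Matrix.trace_add, Matrix.sub_mul,
    Matrix.trace_sub, Matrix.mul_assoc (cdbM l (Gam Q k) x)]

/-- The Laplacian of `tr (g K)`. -/
theorem trL_t (hC : S_CSY) (hS : SF T R σ h) (hQ : KEt T R Q) (hchf : CHF Q T) (hx : x ∈ T) :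
    (trL Q (tS σ h Q) x).re =
      - (Matrix.trace (rho Q x * (Q x)⁻¹ * gS σ h x * (Q x)⁻¹)).re + AAs σ h Q x +
        NKs σ h Q x := by
  have htr : trL Q (tS σ h Q) x = ∑ k, ∑ l, (Q x)⁻¹ l k * LM (tS σ h Q) x k l := by
    rw [trL, Matrix.trace]
    simp only [Matrix.diag_apply, Matrix.mul_apply]
    rw [Finset.sum_comm]
  have h1 : ∑ k, ∑ l, (Q x)⁻¹ l k * Matrix.trace (cdbM l (Gam Q k) x *
      (σ x * (h x * (σ x)ᴴ * (Q x)⁻¹))) =
      Matrix.trace (rho Q x * (Q x)⁻¹ * gS σ h x * (Q x)⁻¹) := by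
    have h2 : ∑ k, ∑ l, (Q x)⁻¹ l k * Matrix.trace (cdbM l (Gam Q k) x *
        (σ x * (h x * (σ x)ᴴ * (Q x)⁻¹))) = Matrix.trace ((∑ k, ∑ l, (Q x)⁻¹ l k •
          cdbM l (Gam Q k) x) * (σ x * (h x * (σ x)ᴴ * (Q x)⁻¹))) := by
      simp only [Finset.sum_mul, Matrix.trace_sum, Matrix.smul_mul, Matrix.trace_smul,
        smul_eq_mul]
    rw [h2, curv_sum hC hQ hchf hx]
    unfold gS
    simp only [Matrix.mul_assoc]
  rw [htr]
  simp only [LM_t hS hQ hx]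
  have h3 : ∑ k, ∑ l, (Q x)⁻¹ l k *
      (Matrix.trace (σ x * RE h k l x * (h x * (σ x)ᴴ * (Q x)⁻¹)) -
      Matrix.trace (cdbM l (Gam Q k) x * (σ x * (h x * (σ x)ᴴ * (Q x)⁻¹))) +
      Matrix.trace (tauS σ h Q k x * (h x * (tauS σ h Q l x)ᴴ * (Q x)⁻¹))) =
      ∑ k, ∑ l, (Q x)⁻¹ l k * Matrix.trace (σ x * (RE h k l x * h x) * (σ x)ᴴ * (Q x)⁻¹) -
      ∑ k, ∑ l, (Q x)⁻¹ l k * Matrix.trace (cdbM l (Gam Q k) x *
        (σ x * (h x * (σ x)ᴴ * (Q x)⁻¹))) +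
      ∑ k, ∑ l, (Q x)⁻¹ l k *
        Matrix.trace (tauS σ h Q k x * h x * (tauS σ h Q l x)ᴴ * (Q x)⁻¹) := by
    rw [← Finset.sum_sub_distrib, ← Finset.sum_add_distrib]
    refine Finset.sum_congr rfl fun k _ => ?_
    rw [← Finset.sum_sub_distrib, ← Finset.sum_add_distrib]
    refine Finset.sum_congr rfl fun l _ => ?_
    simp only [Matrix.mul_assoc]
    ring
  rw [h3, h1, Complex.add_re, Complex.sub_re]
  unfold AAs NKs
  ring

end ident

/-- FCL. -/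
theorem t (hC : S_CSY) (hTRI : Pool.Agent.Helper95.HS.S_TRI.{u})
    (hKETP : Pool.Agent.Helper95.HS.S_KETP.{u}) (hRHOI : S_RHOI.{u}) (hIFN : S_IFN.{u}) :
    S_FCL.{u} := by
  intro n m T G _ R σ h hS Q η hQ hη
  have hT : IsOpen T := hQ.et.isOpen
  have hs := sm_sigma hT hS
  obtain ⟨-, k2, k3⟩ := hKETP T R hQ.et
  obtain ⟨-, hchf, hinvQ⟩ := k2 Q Q hQ hQ
  have hHer : HerT T R Q := ⟨hQ.posDef, hQ.smooth, hinvQ⟩
  have hgs : SmR (gS σ h) T := sm_gS hT hS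
  have htI : InvF T R (tS σ h Q) := (hTRI T R Q hQ).1 (gS σ h) hgs hS.inv
  have hKs := K_smooth hQ
  have hAs : ContinuousOn (AAs σ h Q) T := by
    unfold AAs
    refine Complex.continuous_re.comp_continuousOn ?_
    refine continuousOn_finsetSum _ fun k _ => continuousOn_finsetSum _ fun l _ => ?_
    refine (hKs l k).continuousOn.mul ?_
    have h1 : SmM (fun x => tauS σ h Q k x * h x * (tauS σ h Q l x)ᴴ * (Q x)⁻¹) T :=
      SmR.mul (SmR.mul (SmR.mul (sm_tau hT hS hQ k) (Y := h) hS.smooth)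
        (sm_tau hT hS hQ l).conjTranspose) hKs
    exact h1.trace.continuousOn
  have hNs : ContinuousOn (NKs σ h Q) T := by
    unfold NKs
    refine Complex.continuous_re.comp_continuousOn ?_
    refine continuousOn_finsetSum _ fun k _ => continuousOn_finsetSum _ fun l _ => ?_
    refine (hKs l k).continuousOn.mul ?_
    have h0 : SmR (RE h k l) T := RE_smooth hT hS.smooth hS.posDef k l
    have h1 : SmM (fun x => σ x * (RE h k l x * h x) * (σ x)ᴴ * (Q x)⁻¹) T :=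
      SmR.mul (SmR.mul (SmR.mul hs (SmR.mul h0 (Y := h) hS.smooth)) hs.conjTranspose) hKs
    exact h1.trace.continuousOn
  have hρinv : InvH R (rho Q) := (hRHOI T R Q hQ.et hHer).2.1
  refine ⟨hgs, htI, hAs, hNs, ?_, ?_⟩
  · -- invariance of the sum
    intro γ x y hxy
    have hxT := (hQ.et.mem _ _ _ hxy).1
    have hyT := (hQ.et.mem _ _ _ hxy).2
    have e1 : ∀ z ∈ T, AAs σ h Q z + NKs σ h Q z = (trL Q (tS σ h Q) z).re +
        (Matrix.trace (rho Q z * (Q z)⁻¹ * gS σ h z * (Q z)⁻¹)).re := by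
      intro z hz
      rw [trL_t hC hS hQ hchf hz]
      ring
    rw [e1 x hxT, e1 y hyT]
    have e2 := (k3 Q (tS σ h Q) hQ htI).1.2 γ x y hxy
    have e3 : ∀ z : Cn n, Matrix.trace (rho Q z * (Q z)⁻¹ * gS σ h z * (Q z)⁻¹) =
        (1 / 2 : ℂ) * (Matrix.trace ((rho Q z + gS σ h z) * (Q z)⁻¹ *
          ((rho Q z + gS σ h z) * (Q z)⁻¹)) -
          Matrix.trace (rho Q z * (Q z)⁻¹ * (rho Q z * (Q z)⁻¹)) -
          Matrix.trace (gS σ h z * (Q z)⁻¹ * (gS σ h z * (Q z)⁻¹))) := by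
      intro z
      have h1 : Matrix.trace (gS σ h z * (Q z)⁻¹ * (rho Q z * (Q z)⁻¹)) =
          Matrix.trace (rho Q z * (Q z)⁻¹ * (gS σ h z * (Q z)⁻¹)) := Matrix.trace_mul_comm _ _
      have h2 : rho Q z * (Q z)⁻¹ * gS σ h z * (Q z)⁻¹ =
          rho Q z * (Q z)⁻¹ * (gS σ h z * (Q z)⁻¹) := by
        simp only [Matrix.mul_assoc]
      rw [h2]
      simp only [Matrix.add_mul, Matrix.mul_add, Matrix.trace_add]
      rw [h1]
      ring
    have f1 := (hIFN T R hQ.et Q (fun x => rho Q x + gS σ h x) hHer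
      (InvH.addH hρinv hS.inv)).2 γ x y hxy
    have f2 := (hIFN T R hQ.et Q (rho Q) hHer hρinv).2 γ x y hxy
    have f3 := (hIFN T R hQ.et Q (gS σ h) hHer hS.inv).2 γ x y hxy
    have e4 : Matrix.trace (rho Q y * (Q y)⁻¹ * gS σ h y * (Q y)⁻¹) =
        Matrix.trace (rho Q x * (Q x)⁻¹ * gS σ h x * (Q x)⁻¹) := by
      rw [e3 x, e3 y, f1.2.2, f2.2.2, f3.2.2]
    have e5 : (trL Q (tS σ h Q) y).re = (trL Q (tS σ h Q) x).re := e2
    rw [e4, e5]
  · intro x hx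
    have hKp : ((Q x)⁻¹).PosSemidef := (hQ.posDef x hx).inv.posSemidef
    have hhp := (hS.posDef x hx).posSemidef
    obtain ⟨a1, a2, a3, a4⟩ := aaps_rect hKp hhp (fun k => tauS σ h Q k x) (σ x)
    have hcd : ∀ k, cd k (fun y => ((tS σ h Q y : ℝ) : ℂ)) x =
        Matrix.trace (tauS σ h Q k x * h x * (σ x)ᴴ * (Q x)⁻¹) := by
      intro k
      rw [(cd_congr' hT hx (fun y hy => tS_real hS hQ hy) k).1, cd_t hS hQ hx k]
      simp only [Matrix.mul_assoc]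
    refine ⟨gS_psd (hS.posDef x hx), a2, a1, hcd, fun l => cdbR_B hS hQ hx l, ?_, ?_⟩
    · rw [trL_t hC hS hQ hchf hx, hη x hx]
      have hu : IsUnit (Q x).det := isUnit_iff_ne_zero.2 (posDef_det (hQ.posDef x hx))
      have h1 : Matrix.trace ((Q x - η x) * (Q x)⁻¹ * gS σ h x * (Q x)⁻¹) =
          Matrix.trace (gS σ h x * (Q x)⁻¹) -
            Matrix.trace (η x * (Q x)⁻¹ * gS σ h x * (Q x)⁻¹) := by
        rw [Matrix.sub_mul, Matrix.mul_nonsing_inv _ hu, Matrix.sub_mul, Matrix.one_mul,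
          Matrix.sub_mul, Matrix.trace_sub]
      rw [h1, Complex.sub_re]
      unfold tS
      ring
    · simp only [hcd]
      exact a4

end Pool.Agent.Helper2.FM.FCL
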